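import Pool.Agent.Helper14.BSC.Stmts

/-!
# MP_8312c9_nt, module RIGN3: `NN D S` is rigid for `ℓ = 3` when `FF S` is good
-/

set_option autoImplicit false

namespace Pool.Agent.Helper14.BSC

set_option maxRecDepth 100000 in
theorem rign3_line : ∀ A B X : ZMod 3 × ZMod 3, A ≠ B →
    (A.1 - X.1) * (B.2 - X.2) = (A.2 - X.2) * (B.1 - X.1) → X = A ∨ X = B ∨ X = -A - B := by
  decide

set_option maxRecDepth 100000 in
theorem rign3_fin : ∀ Y X : ZMod 3 × ZMod 3, Y.2 ≠ 0 →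
    (X = -Y ∨ X = (1, 0) ∨ X = -(-Y) - (1, 0)) → (X = (2, 0) ∨ X = Y ∨ X = -(2, 0) - Y) → False := by
  decide

set_option maxRecDepth 100000 in
theorem rign3_odd : ∀ Y : ZMod 3 × ZMod 3, Y ≠ 0 → (1, 0) + Y ≠ 0 → (1, 0) + (1, 0) + Y ≠ 0 →
    Y.2 ≠ 0 := by
  decide

theorem rign3_abs {N : Type} [Field N] (e : N) (Cl : N → ZMod 3 × ZMod 3)
    (hmul : ∀ x y, x ≠ 0 → y ≠ 0 → Cl (x * y) = Cl x + Cl y)
    (hker : ∀ x, x ≠ 0 → (Cl x = 0 ↔ C3 x))
    (he0 : e ≠ 0) (he : Cl e = (1, 0)) (h1e0 : 1 + e ≠ 0) (h1e : Cl (1 + e) = (2, 0))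
    (hdet : ∀ u v, u ≠ 0 → v ≠ 0 → u + v = 1 → (Cl u).1 * (Cl v).2 = (Cl u).2 * (Cl v).1) :
    Rigid3 e := by
  refine ⟨he0, ?_⟩
  intro y hy
  have hc0 : C3 (0 : N) := ⟨0, by ring⟩
  have h1 : Cl 1 = 0 := (hker 1 one_ne_zero).mpr ⟨1, by ring⟩
  have hm1 : Cl (-1) = 0 := (hker (-1) (by norm_num)).mpr ⟨-1, by ring⟩
  have hinv : ∀ x, x ≠ 0 → Cl x⁻¹ = -Cl x := by
    intro x hx
    have h2 := hmul x x⁻¹ hx (inv_ne_zero hx)
    rw [mul_inv_cancel₀ hx, h1] at h2
    exact (neg_eq_of_add_eq_zero_right h2.symm).symm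
  have hneg : ∀ x, x ≠ 0 → Cl (-x) = Cl x := by
    intro x hx
    have h2 := hmul (-1) x (by norm_num) hx
    rw [hm1, zero_add] at h2
    rw [← h2]
    congr 1
    ring
  -- the affine line
  have hline : ∀ a b : N, a ≠ 0 → b ≠ 0 → a + b ≠ 0 → Cl a ≠ Cl b →
      Cl (a + b) = Cl a ∨ Cl (a + b) = Cl b ∨ Cl (a + b) = -Cl a - Cl b := by
    intro a b ha hb hab hne
    have h2 := hdet (a * (a + b)⁻¹) (b * (a + b)⁻¹) (mul_ne_zero ha (inv_ne_zero hab))
      (mul_ne_zero hb (inv_ne_zero hab)) (by rw [← add_mul, mul_inv_cancel₀ hab])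
    rw [hmul _ _ ha (inv_ne_zero hab), hmul _ _ hb (inv_ne_zero hab), hinv _ hab] at h2
    apply rign3_line (Cl a) (Cl b) (Cl (a + b)) hne
    simpa [sub_eq_add_neg] using h2
  have hy0 : y ≠ 0 := by
    intro h
    exact hy.1 (h ▸ hc0)
  have hY : (Cl y).2 ≠ 0 := by
    apply rign3_odd (Cl y)
    · intro h
      exact hy.1 ((hker y hy0).mp h)
    · intro h
      apply hy.2.1
      apply (hker _ (mul_ne_zero he0 hy0)).mp
      rw [hmul _ _ he0 hy0, he]
      exact h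
    · intro h
      apply hy.2.2
      have hee : e ^ 2 = e * e := by ring
      apply (hker _ (mul_ne_zero (pow_ne_zero 2 he0) hy0)).mp
      rw [hmul _ _ (pow_ne_zero 2 he0) hy0, hee, hmul _ _ he0 he0, he]
      exact h
  by_cases h1y : 1 + y = 0
  · left
    rw [h1y]
    exact hc0
  have hY0 : Cl 1 ≠ Cl y := by
    rw [h1]
    intro h
    exact hY (by rw [← h]; rfl)
  rcases hline 1 y one_ne_zero hy0 h1y hY0 with h | h | h
  · left
    rw [h1] at h
    exact (hker _ h1y).mp h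
  · right
    have h3 : 1 + y⁻¹ = (1 + y) * y⁻¹ := by
      rw [add_mul, mul_inv_cancel₀ hy0, one_mul, add_comm]
    rw [h3]
    apply (hker _ (mul_ne_zero h1y (inv_ne_zero hy0))).mp
    rw [hmul _ _ h1y (inv_ne_zero hy0), hinv _ hy0, h, add_neg_cancel]
  · exfalso
    rw [h1, neg_zero, zero_sub] at h
    by_cases hs : 1 + e + y = 0
    · have h4 : y = -(1 + e) := by linear_combination hs
      apply hY
      rw [h4, hneg _ h1e0, h1e]
    · have hne1 : Cl (1 + y) ≠ Cl e := by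
        rw [h, he]
        intro h5
        apply hY
        have := congrArg Prod.snd h5
        simpa using this
      have hne2 : Cl (1 + e) ≠ Cl y := by
        rw [h1e]
        intro h5
        apply hY
        rw [← h5]
      have h6 := hline (1 + y) e h1y he0 (by rw [show 1 + y + e = 1 + e + y by ring]; exact hs) hne1
      have h7 := hline (1 + e) y h1e0 hy0 hs hne2
      rw [show 1 + y + e = 1 + e + y by ring, h, he] at h6
      rw [h1e] at h7
      exact rign3_fin (Cl y) (Cl (1 + e + y)) hY h6 h7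

theorem st_RIGN3 (hKUM : ST_KUM) (hROOT : ST_ROOT) (hCL : ST_CL3) (hDSC : ST_DSC3) : ST_RIGN3 := by
  intro k Ω _ _ _ _ _ D p _ hp3 Lc S ϖ hG e hA
  obtain ⟨cl, hmul, hker, hce, hc1e, hnorm⟩ := hCL k Ω p hp3 Lc S ϖ hG e hA
  have hinj : Function.Injective (inc D S) := (inc D S).injective
  have he0 : e ≠ 0 := by
    intro h
    have h1 := hA.2.1
    rw [h] at h1
    simp [nm] at h1
  have h1e0 : 1 + e ≠ 0 := by
    intro h
    have h1 := hA.2.2.1
    have h2 : (1 : Acl k Ω) + (e : Acl k Ω) = 0 := by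
      have := congrArg (fun x : FF S => (x : Acl k Ω)) h
      simpa using this
    rw [h2] at h1
    simp [nm] at h1
  -- a primitive cube root of one
  obtain ⟨w, hw, hwp⟩ := Lc.W3
  have hwS : w ∈ FF S := FF_le hG.sub hw
  have hwp' : IsPrimitiveRoot (⟨w, hwS⟩ : FF S) 3 := by
    have h1 : Function.Injective ((FF S).val) := (FF S).val.injective
    exact IsPrimitiveRoot.of_map_of_injective (f := (FF S).val) (by exact hwp) h1
  -- extension of the class
  have hwd : ∀ (c c' : FF S) (t t' : NN D S), c ≠ 0 → c' ≠ 0 → t ≠ 0 → t' ≠ 0 →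
      inc D S c * t ^ 3 = inc D S c' * t' ^ 3 → cl c = cl c' := by
    intro c c' t t' hc hc' ht ht' h
    have hic' : inc D S c' ≠ 0 := (map_ne_zero (inc D S)).mpr hc'
    have h1 : (t' / t) ^ 3 = inc D S (c / c') := by
      rw [map_div₀, div_pow, div_eq_div_iff (pow_ne_zero 3 ht) hic']
      linear_combination -h
    obtain ⟨d, hd⟩ := hROOT k Ω D S 3 (by norm_num) _ _ h1
    have h2 : c / c' = d ^ 3 := by
      apply hinj
      rw [← h1, hd, map_pow]
    have hcc : c / c' ≠ 0 := div_ne_zero hc hc'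
    have h3 : cl (c / c') = 0 := (hker _ hcc).mpr ⟨d, h2⟩
    have h4 := hmul (c / c') c' hcc hc'
    rw [div_mul_cancel₀ _ hc', h3, zero_add] at h4
    exact h4
  have hex : ∀ x : NN D S, ∃ v : ZMod 3 × ZMod 3, x ≠ 0 → ∃ (c : FF S) (t : NN D S), c ≠ 0 ∧ t ≠ 0 ∧
      x = inc D S c * t ^ 3 ∧ v = cl c := by
    intro x
    by_cases hx : x = 0
    · exact ⟨0, fun h => absurd hx h⟩
    · obtain ⟨c, hc, t, ht, h⟩ := hKUM k Ω D S 3 (by norm_num) x hx
      exact ⟨cl c, fun _ => ⟨c, t, hc, ht, h, rfl⟩⟩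
  choose Cl hCl using hex
  have hClv : ∀ (x : NN D S) (c : FF S) (t : NN D S), c ≠ 0 → t ≠ 0 → x = inc D S c * t ^ 3 →
      Cl x = cl c := by
    intro x c t hc ht hx
    have hx0 : x ≠ 0 := by
      rw [hx]
      exact mul_ne_zero ((map_ne_zero (inc D S)).mpr hc) (pow_ne_zero 3 ht)
    obtain ⟨c', t', hc', ht', hx', hv⟩ := hCl x hx0
    rw [hv]
    exact hwd c' c t' t hc' hc ht' ht (by rw [← hx', ← hx])
  have hClmul : ∀ x y : NN D S, x ≠ 0 → y ≠ 0 → Cl (x * y) = Cl x + Cl y := by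
    intro x y hx hy
    obtain ⟨c, t, hc, ht, hxe, hv⟩ := hCl x hx
    obtain ⟨c', t', hc', ht', hye, hv'⟩ := hCl y hy
    rw [hv, hv', ← hmul c c' hc hc']
    apply hClv (x * y) (c * c') (t * t') (mul_ne_zero hc hc') (mul_ne_zero ht ht')
    rw [hxe, hye, map_mul]
    ring
  have hCl1 : cl 1 = 0 := (hker 1 one_ne_zero).mpr ⟨1, by ring⟩
  apply rign3_abs (inc D S e) Cl hClmul
  · intro x hx
    obtain ⟨c, t, hc, ht, hxe, hv⟩ := hCl x hx
    constructor
    · intro h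
      rw [hv] at h
      obtain ⟨d, hd⟩ := (hker c hc).mp h
      refine ⟨inc D S d * t, ?_⟩
      rw [hxe, hd, map_pow]
      ring
    · rintro ⟨s, hs⟩
      have hs0 : s ≠ 0 := by
        intro h
        rw [h] at hs
        apply hx
        rw [hs]
        ring
      rw [hClv x 1 s one_ne_zero hs0 (by rw [map_one, one_mul]; exact hs), hCl1]
  · exact (map_ne_zero (inc D S)).mpr he0
  · rw [hClv (inc D S e) e 1 he0 one_ne_zero (by ring), hce]
  · rw [← map_one (inc D S), ← map_add]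
    exact (map_ne_zero (inc D S)).mpr h1e0
  · rw [← map_one (inc D S), ← map_add, hClv _ (1 + e) 1 h1e0 one_ne_zero (by ring), hc1e]
  · intro u v hu hv huv
    obtain ⟨c, g, hc, hg, hue, hvu⟩ := hCl u hu
    obtain ⟨d, h, hd, hh, hve, hvv⟩ := hCl v hv
    rw [hvu, hvv]
    by_cases hcc : C3 c
    · rw [(hker c hc).mpr hcc]
      simp
    · obtain ⟨a, b, g', hab⟩ := hDSC k Ω D S c d ⟨w, hwS⟩ g h hwp' hcc hd hh
        (by rw [← hue, ← hve]; exact huv)
      exact hnorm c d a b g' hc hd hab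

end Pool.Agent.Helper14.BSC
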